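import Pool.Agent.Helper32.FR.Defs
import Pool.Agent.Helper84.BA.Pt

/-!
# Project FR (MP_743798, Q1), module D4: relative pseudo-intersections from `PP`
-/

set_option autoImplicit false
set_option linter.unusedSectionVars false

namespace Pool.Agent.Helper32.FR

open Pool.Agent.Helper33.HM Pool.Agent.Helper94.BA Filter

universe u

theorem h5_PN_mono {t s : List ℕ} {k k' : ℕ} (h : k ≤ k') (hp : PN t k' s) : PN t k s := by
  obtain ⟨j, v, hj, hs⟩ := hp
  exact ⟨j, v, h.trans hj, hs⟩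

theorem h5_PN_sum {t s : List ℕ} {k : ℕ} (hp : PN t k s) : k ≤ s.sum := by
  obtain ⟨j, v, hj, hs⟩ := hp
  rw [hs, List.sum_append, List.sum_cons]
  omega

/-- The small family of the module. -/
noncomputable def h5_y {B : Type 1} [CompleteBooleanAlgebra B] (c : Ordinal.{0} → ℕ → B)
    (γ : Ordinal.{0}) (A : ℕ → B) (t : List ℕ) :
    (Shrink.{0} (Set.Iio γ)) ⊕ (Option ℕ) → ℕ → B
  | .inl i, n => accV c γ A t ⊓ (okV t (c ((equivShrink (Set.Iio γ)).symm i).1) ⊓
      (avV t (c ((equivShrink (Set.Iio γ)).symm i).1) (nd n))ᶜ)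
  | .inr (some k), n => accV c γ A t ⊓ ⨆ _ : ¬ PN t k (nd n), ⊤
  | .inr none, n => accV c γ A t ⊓ (A n)ᶜ

theorem h5_hyp {B : Type 1} [CompleteBooleanAlgebra B] (c : Ordinal.{0} → ℕ → B)
    (γ : Ordinal.{0}) (A : ℕ → B) (t : List ℕ)
    (s : Finset ((Shrink.{0} (Set.Iio γ)) ⊕ (Option ℕ))) (m : ℕ) :
    ⨆ n : ℕ, ⨆ _ : m ≤ n, ⨅ j, ⨅ _ : j ∈ s, (h5_y c γ A t j n)ᶜ = ⊤ := by
  classical
  -- the list of the ordinals
  let L : List Ordinal.{0} := s.toList.filterMap fun j =>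
    match j with
    | .inl i => some ((equivShrink (Set.Iio γ)).symm i).1
    | .inr _ => none
  have hL : ∀ β ∈ L, β < γ := by
    intro β hβ
    obtain ⟨j, hj, h⟩ := List.mem_filterMap.1 hβ
    rcases j with i | i
    · simp only [Option.some.injEq] at h
      rw [← h]
      exact ((equivShrink (Set.Iio γ)).symm i).2
    · simp at h
  have hL' : ∀ i, Sum.inl i ∈ s → ((equivShrink (Set.Iio γ)).symm i).1 ∈ L := fun i hi =>
    List.mem_filterMap.2 ⟨Sum.inl i, Finset.mem_toList.2 hi, rfl⟩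
  let K : ℕ := 1 + (∑ n ∈ Finset.range m, (nd n).sum) +
    ∑ j ∈ s, (match j with
      | .inr (some k) => k
      | _ => 0)
  have hK1 : ∀ n, PN t K (nd n) → m ≤ n := by
    intro n hn
    by_contra hlt
    have h1 := h5_PN_sum hn
    have h2 : (nd n).sum ≤ ∑ n ∈ Finset.range m, (nd n).sum :=
      Finset.single_le_sum (f := fun n => (nd n).sum) (fun _ _ => Nat.zero_le _)
        (Finset.mem_range.2 (not_le.1 hlt))
    omega
  have hK2 : ∀ k, Sum.inr (some k) ∈ s → k ≤ K := by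
    intro k hk
    have h2 := Finset.single_le_sum (f := fun j : (Shrink.{0} (Set.Iio γ)) ⊕ (Option ℕ) =>
      (match j with
      | .inr (some k) => k
      | _ => 0 : ℕ)) (fun _ _ => Nat.zero_le _) hk
    simp only at h2
    omega
  let l : ℕ → Ordinal.{0} := fun i => L.getD i 0
  have hacc : accV c γ A t ≤ accS (fun i => c (l i)) L.length A t K := by
    refine iInf_le_of_le l (iInf_le_of_le L.length (iInf_le_of_le (fun i hi => ?_)
      (iInf_le_of_le K le_rfl)))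
    refine hL _ ?_
    simp only [l, List.getD_eq_getElem _ _ hi]
    exact List.getElem_mem hi
  refine eq_top_of_ae ?_
  filter_upwards [ae_iSup fun n : ℕ => ⨆ _ : m ≤ n, ⨅ j, ⨅ _ : j ∈ s, (h5_y c γ A t j n)ᶜ,
    ae_forall fun n : ℕ => ae_iInf fun j => ⨅ _ : j ∈ s, (h5_y c γ A t j n)ᶜ,
    ae_iSup fun n : ℕ => ⨆ _ : PN t K (nd n),
      A n ⊓ ⨅ i : ℕ, ⨅ _ : i < L.length, (okV t (c (l i)) ⇨ avV t (c (l i)) (nd n)),
    ae_forall fun n : ℕ => ae_iInf fun i : ℕ => ⨅ _ : i < L.length,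
      (okV t (c (l i)) ⇨ avV t (c (l i)) (nd n))] with φ h1 h2 h3 h4
  rw [h1]
  simp only [Pt.iSup_prop, h2, Pt.iInf_prop, Pt.compl]
  by_cases hb : φ (accV c γ A t)
  · have h5 := φ.mono hacc hb
    unfold accS at h5
    rw [h3] at h5
    simp only [Pt.iSup_prop, Pt.inf, h4, Pt.iInf_prop, Pt.himp] at h5
    obtain ⟨n, hPN, hA, hav⟩ := h5
    refine ⟨n, hK1 n hPN, fun j hj hy => ?_⟩
    rcases j with i | (_ | k)
    · simp only [h5_y, Pt.inf, Pt.compl] at hy
      obtain ⟨i', hi', he⟩ := List.getElem_of_mem (hL' i hj)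
      have h6 := hav i' hi'
      simp only [l, List.getD_eq_getElem _ _ hi', he] at h6
      exact hy.2.2 (h6 hy.2.1)
    · simp only [h5_y, Pt.inf, Pt.compl] at hy
      exact hy.2 hA
    · simp only [h5_y, Pt.inf, Pt.iSup_prop] at hy
      obtain ⟨h7, _⟩ := hy.2
      exact h7 (h5_PN_mono (hK2 k hj) hPN)
  · refine ⟨m, le_rfl, fun j hj hy => ?_⟩
    rcases j with i | (_ | k)
    · simp only [h5_y, Pt.inf] at hy
      exact hb hy.1
    · simp only [h5_y, Pt.inf] at hy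
      exact hb hy.1
    · simp only [h5_y, Pt.inf] at hy
      exact hb hy.1

theorem exists_pi {B : Type 1} [CompleteBooleanAlgebra B] (hp : PP B)
    (c : Ordinal.{0} → ℕ → B) (γ : Ordinal.{0}) (A : ℕ → B) (t : List ℕ) :
    ∃ Z : ℕ → B, piV c γ A t Z = ⊤ := by
  obtain ⟨z, hz, hzy⟩ := hp _ (h5_y c γ A t) (h5_hyp c γ A t)
  refine ⟨fun n => z n ⊓ A n, ?_⟩
  have hb : accV c γ A t ≤ convV c γ t fun n => z n ⊓ A n := by
    refine le_inf (le_inf ?_ ?_) ?_
    · refine le_of_ae ?_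
      filter_upwards [ae_finV fun n => z n ⊓ A n, ae_finV z,
        ae_finV (z ⊓ h5_y c γ A t (.inr none))] with φ h1 h2 h3 hb
      have h4 := le_top_of_eq (hzy (.inr none)) φ
      rw [h3] at h4
      obtain ⟨m, hm⟩ := h4
      rw [Pt.compl, h1]
      rintro ⟨m', hm'⟩
      refine not_of_eq_bot hz φ (h2.2 ⟨max m m', fun n hn hzn => ?_⟩)
      have h5 := hm n ((le_max_left _ _).trans hn)
      have h6 := hm' n ((le_max_right _ _).trans hn)
      simp only [Pi.inf_apply, h5_y, Pt.inf, Pt.compl] at h5 h6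
      tauto
    · refine le_iInf fun k => le_of_ae ?_
      filter_upwards [ae_finV fun n => ⨆ _ : ¬ PN t k (nd n), z n ⊓ A n,
        ae_finV (z ⊓ h5_y c γ A t (.inr (some k)))] with φ h1 h3 hb
      have h4 := le_top_of_eq (hzy (.inr (some k))) φ
      rw [h3] at h4
      obtain ⟨m, hm⟩ := h4
      rw [h1]
      refine ⟨m, fun n hn h5 => hm n hn ?_⟩
      simp only [Pi.inf_apply, h5_y, Pt.inf, Pt.iSup_prop] at h5 ⊢
      obtain ⟨h6, h7, -⟩ := h5
      exact ⟨h7, hb, h6, by simp⟩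
    · refine le_iInf fun β => le_iInf fun hβ => le_himp_iff.2 (le_of_ae ?_)
      filter_upwards [ae_finV fun n => z n ⊓ A n ⊓ (avV t (c β) (nd n))ᶜ,
        ae_finV (z ⊓ h5_y c γ A t (.inl (equivShrink (Set.Iio γ) ⟨β, hβ⟩)))] with φ h1 h3 hb
      have h4 := le_top_of_eq (hzy (.inl (equivShrink (Set.Iio γ) ⟨β, hβ⟩))) φ
      rw [h3] at h4
      obtain ⟨m, hm⟩ := h4
      rw [h1]
      refine ⟨m, fun n hn h5 => hm n hn ?_⟩
      simp only [Pi.inf_apply, h5_y, Pt.inf, Pt.compl, Equiv.symm_apply_apply] at h5 hb ⊢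
      exact ⟨h5.1.1, hb.1, hb.2, h5.2⟩
  unfold piV
  rw [himp_eq_top_iff.2 hb, inf_top_eq, iInf_eq_top]
  intro n
  exact himp_eq_top_iff.2 inf_le_right

end Pool.Agent.Helper32.FR
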